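import Pool.Agent.R432.CX7

/-!
# Curves with a rational point of order two over fields of odd degree with complex places

`E : y² = x³ + A x² + B x` over `ℚ`, of the types of the file `TwoTorsionStability`, and `K` a number field
of odd degree and odd narrow class number with `r` complex places (in that file `K` is totally real,
and then the rank and `Ш[2^∞]` do not change from `ℚ` to `K`).

We show that over `K` the rank of `E` and the 2-primary part of `Ш` together can grow by at most
`r`: there is a subgroup `N` of `Ш(E/K)[2^∞]` with `Ш(E/K)[2^∞] ≃ Ш(E/ℚ)[2^∞] × N` and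
`2 ^ rank E(K) * #N[2] ≤ 2 ^ (rank E(ℚ) + r)`.  So the rank grows by at most `r`, and if it grows by `r`, then
`Ш(E/K)[2^∞] ≃ Ш(E/ℚ)[2^∞]`.  Over a complex cubic field, one new point of infinite order is
enough to show that `Ш(E/K)[2^∞]` is finite whenever `Ш(E/ℚ)[2^∞]` is.

The proof: the norm (corestriction) of a class in the kernel of `Ш(E/K) → Ш(E/ℚ)`, or of a
point in the kernel of the trace `E(K) → E(ℚ)`, is trivial.  For such classes one of the two components of the
2-Selmer class (for the isogeny of degree two and its dual) vanishes, and the other one is the class of a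
unit that is positive at the real places, up to squares; there are at most `2 ^ r` such classes.

For `E : y² = x (x + 1) (x - 3)` everything is made explicit, and over the field `K = ℚ(α)`, `α³ = α + 1`, of
discriminant `-23`, the rank of `E` is one and `Ш(E/K)[2^∞] = 0`.
-/

set_option autoImplicit false

namespace Pool.Agent.Results.MP_78d38b_nt.ComplexPlaces

open NumberField IsDedekindDomain

open Pool.Agent.Y682 (NCl)

/-- The curve `y² = x³ + A x² + B x`. -/
def E (A B : ℤ) (k : Type) [Field k] : WeierstrassCurve k := ⟨0, A, 0, B, 0⟩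

/-- The 2-primary part of the Tate-Shafarevich group of `E A B` over `K`. -/
noncomputable abbrev ShaTwo (A B : ℤ) (K : Type) [Field K] [NumberField K] :
    AddSubgroup (Pool.Agent.TH841.NF.D.Sha (E A B K)) :=
  AddCommGroup.primaryComponent (Pool.Agent.TH841.NF.D.Sha (E A B K)) 2

/-- The 2-primary part of the Tate-Shafarevich group of `E A B` over the rationals. -/
noncomputable abbrev ShaTwoQ (A B : ℤ) : AddSubgroup (Pool.Agent.TH841.SH.D.Sha (E A B ℚ)) :=
  AddCommGroup.primaryComponent (Pool.Agent.TH841.SH.D.Sha (E A B ℚ)) 2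

/-- The rank of `E A B` over `K`. -/
noncomputable def rank (A B : ℤ) (K : Type) [Field K] [NumberField K] : ℕ :=
  Pool.Agent.TH841.NF.D.rk (E A B K)

/-- The rank of `E A B` over the rationals. -/
noncomputable def rankQ (A B : ℤ) : ℕ := Pool.Agent.TH841.SH.D.rk (E A B ℚ)

/-- `A`, `B` are the coefficients of a curve `E : y² = x³ + A x² + B x`, not both `4 ∣ A` and
`16 ∣ B`, with opposite types of the isogeny by `(0, 0)` at `∞` and at `2` : `B > 0` and
(`A < 0` or `A² < 4B`) holds if and only if `A` is odd or `4` does not divide `(A/2)² - B`. -/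
def Pair (A B : ℤ) : Prop := B ≠ 0 ∧ A ^ 2 ≠ 4 * B ∧ ¬ (4 ∣ A ∧ 16 ∣ B) ∧
  ((0 < B ∧ (A < 0 ∨ A ^ 2 < 4 * B)) ↔ (¬ 2 ∣ A ∨ ¬ 4 ∣ (A / 2) ^ 2 - B))

/-- The exceptional case at `2`: `A = 3 mod 4` and `B = 2` or `3 mod 4`, or `A = 2 mod 8` and
`(A/2)² - B = 8, 9, …, 15 mod 16`. -/
def Exc (A B : ℤ) : Prop := (A % 4 = 3 ∧ 2 ≤ B % 4) ∨ (A % 8 = 2 ∧ 8 ≤ ((A / 2) ^ 2 - B) % 16)

/-- There is only one prime of `K` above `p`. -/
def OneAbove (K : Type) [Field K] [NumberField K] (p : ℕ) : Prop :=
  ∀ v w : HeightOneSpectrum (𝓞 K), (p : 𝓞 K) ∈ v.asIdeal → (p : 𝓞 K) ∈ w.asIdeal → v = w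

/-- `β` is not a square modulo any prime of `K` above `p`. -/
def NonSquare (K : Type) [Field K] [NumberField K] (p : ℕ) (β : ℤ) : Prop :=
  ∀ v : HeightOneSpectrum (𝓞 K), (p : 𝓞 K) ∈ v.asIdeal → ∀ x : 𝓞 K, x ^ 2 - (β : 𝓞 K) ∉ v.asIdeal

/-- The condition on `K` at a bad prime `p`: there is only one prime of `K` above `p`, or `p` is odd
and there are integers `d ≠ 0`, `α`, `β` with `A = d α`, `B = d² β` such that `β` and `α² - 4 β` are
not squares modulo any prime of `K` above `p`. -/
def AtBad (K : Type) [Field K] [NumberField K] (A B : ℤ) (p : ℕ) : Prop :=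
  OneAbove K p ∨ (p ≠ 2 ∧ ∃ d α β : ℤ, d ≠ 0 ∧ A = d * α ∧ B = d ^ 2 * β ∧
    NonSquare K p β ∧ NonSquare K p (α ^ 2 - 4 * β))

/-- With `r` the number of the complex places of `K`: there is a subgroup `N` of `Ш(E/K)`, all of
whose elements have order a power of two, with finite `N[2]`, such that
`Ш(E/K)[2^∞] ≃ Ш(E/ℚ)[2^∞] × N` and `2 ^ rank E(K) * #N[2] ≤ 2 ^ (rank E(ℚ) + r)`. -/
def Splits (K : Type) [Field K] [NumberField K] (A B : ℤ) : Prop :=
  ∃ N : AddSubgroup (Pool.Agent.TH841.NF.D.Sha (E A B K)),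
    (∀ x ∈ N, ∃ m : ℕ, 2 ^ m • x = 0) ∧ Finite {x : N // 2 • x = 0} ∧
    2 ^ rank A B K * Nat.card {x : N // 2 • x = 0} ≤
      2 ^ (rankQ A B + InfinitePlace.nrComplexPlaces K) ∧
    Nonempty (ShaTwo A B K ≃+ ShaTwoQ A B × N)

/-- The conclusion.  With `r` the number of the complex places of `K`: the property `Splits`; the rank of
`E(K)` is at most `rank E(ℚ) + r`, and if it is equal to this number, then
`Ш(E/K)[2^∞] ≃ Ш(E/ℚ)[2^∞]`. -/
def Controlled (K : Type) [Field K] [NumberField K] (A B : ℤ) : Prop :=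
  Splits K A B ∧ rank A B K ≤ rankQ A B + InfinitePlace.nrComplexPlaces K ∧
  (rank A B K = rankQ A B + InfinitePlace.nrComplexPlaces K →
    Nonempty (ShaTwo A B K ≃+ ShaTwoQ A B))

/-- The field `K` has odd degree and odd narrow class number. -/
def OddField (K : Type) [Field K] [NumberField K] : Prop :=
  Odd (Module.finrank ℚ K) ∧ Odd (Nat.card (NCl K))

/-- The ideal `(2)` of the ring of integers of `K` is prime. -/
def TwoPrime (K : Type) [Field K] [NumberField K] : Prop := (Ideal.span {(2 : 𝓞 K)}).IsPrime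

/-- The theorem for the curves with opposite types at `∞` and at `2`, and the fields `K` in which `2`
remains prime. -/
def First (K : Type) [Field K] [NumberField K] : Prop :=
  ∀ A B : ℤ, Pair A B → TwoPrime K → (3 ∣ Module.finrank ℚ K → ¬ Exc A B) →
    (∀ p : ℕ, p.Prime → (p : ℤ) ∣ B * (A ^ 2 - 4 * B) → AtBad K A B p) → Controlled K A B

/-- The theorem for the curves `y² = x³ + a x² + 16 c x` and `y² = x³ - 2a x² + (a² - 64c) x`, without a
condition on `K` at `2`. -/
def Second (K : Type) [Field K] [NumberField K] : Prop :=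
  ∀ a c : ℤ, a % 4 = 1 → 0 < c → a < 0 ∨ a ^ 2 < 64 * c →
    (∀ p : ℕ, p.Prime → (p : ℤ) ∣ c * (a ^ 2 - 64 * c) → OneAbove K p) →
    Controlled K a (16 * c) ∧ Controlled K (-2 * a) (a ^ 2 - 64 * c)

/-- For `E : y² = x (x + 1) (x - 3)`: `Ш(E/K)[2^∞] = 0`. -/
def Vanishes (K : Type) [Field K] [NumberField K] : Prop := ∀ x ∈ ShaTwo (-2) (-3) K, x = 0

/-- The theorem for `E : y² = x (x + 1) (x - 3)`, if `2` remains prime in `K` and there is only one prime
above `3`: the rank of `E(K)` is at most the number of the complex places, and if it is equal to it, then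
`Ш(E/K)[2^∞] = 0`. -/
def Third (K : Type) [Field K] [NumberField K] : Prop :=
  TwoPrime K → OneAbove K 3 → rank (-2) (-3) K ≤ InfinitePlace.nrComplexPlaces K ∧
    (rank (-2) (-3) K = InfinitePlace.nrComplexPlaces K → Vanishes K)

lemma controlled_of {K : Type} [Field K] [NumberField K] {A B : ℤ}
    (h : Pool.Agent.R432.CX.Con K A B) : Controlled K A B :=
  ⟨h, h.rank_le, fun hr => h.extreme hr.ge⟩

theorem first {K : Type} [Field K] [NumberField K] (hK : OddField K) : First K := by
  intro A B ⟨hB, hD, hred, htype⟩ h2 h3 hbad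
  refine controlled_of (@Pool.Agent.R432.CX.stabHC K _ _ DivisionRing.toRatAlgebra A B hB hD
    hred htype (fun h => ⟨fun h' => h3 h (Or.inl h'), fun h' => h3 h (Or.inr h')⟩) h2 hK.2 hK.1
    fun p hp hpd => ?_)
  rcases hbad p hp hpd with h | ⟨hp2, d, α, β, hd, hA, hB, h4, h5⟩
  · exact Or.inl h
  · exact Or.inr ⟨hp2, d, α, β, hd, hA, hB, fun v hv x => ⟨h4 v hv x, h5 v hv x⟩⟩

theorem second {K : Type} [Field K] [NumberField K] (hK : OddField K) : Second K := by
  intro a c ha hc hac hbad
  have hD : a ^ 2 ≠ 64 * c := by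
    intro h
    have h4 : a ^ 2 % 2 = 1 := by
      obtain ⟨k, hk⟩ : ∃ k : ℤ, a = 1 + 4 * k := ⟨a / 4, by omega⟩
      have : a ^ 2 = 2 * (4 * k + 8 * k ^ 2) + 1 := by rw [hk]; ring
      rw [this]
      omega
    omega
  have hb : ∀ p : ℕ, p.Prime → (p : ℤ) ∣ c * (a ^ 2 - 64 * c) →
      Pool.Agent.Y682.BadOK' K a c p := fun p hp hpd => Or.inl (hbad p hp hpd)
  exact ⟨controlled_of (@Pool.Agent.R432.CX.stabOC K _ _ DivisionRing.toRatAlgebra a c _ _ ha hc
      hac hD (Or.inl ⟨rfl, rfl⟩) hK.2 hK.1 hb),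
    controlled_of (@Pool.Agent.R432.CX.stabOC K _ _ DivisionRing.toRatAlgebra a c _ _ ha hc
      hac hD (Or.inr ⟨rfl, rfl⟩) hK.2 hK.1 hb)⟩

theorem third {K : Type} [Field K] [NumberField K] (hK : OddField K) : Third K := by
  intro h2 h3
  have hP : Pair (-2) (-3) := by
    refine ⟨by norm_num, by norm_num, by norm_num, ?_⟩
    constructor
    · rintro ⟨h, -⟩
      norm_num at h
    · intro h
      exfalso
      rcases h with h | h
      · exact h ⟨-1, by norm_num⟩
      · exact h ⟨1, by norm_num⟩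
  have hE : ¬ Exc (-2) (-3) := by
    unfold Exc
    decide
  have hv : ∀ p : ℕ, p.Prime → (p : ℤ) ∣ (-3) * ((-2) ^ 2 - 4 * (-3)) →
      AtBad K (-2) (-3) p := by
    intro p hp hpd
    have e : (-3 : ℤ) * ((-2) ^ 2 - 4 * (-3)) = -(3 * 2 ^ 4) := by norm_num
    rw [e, dvd_neg] at hpd
    have hpd' : p ∣ 3 * 2 ^ 4 := by exact_mod_cast hpd
    left
    rcases (Nat.Prime.dvd_mul hp).1 hpd' with h | h
    · rw [(Nat.prime_dvd_prime_iff_eq hp Nat.prime_three).1 h]
      exact h3
    · rw [(Nat.prime_dvd_prime_iff_eq hp Nat.prime_two).1 (hp.dvd_of_dvd_pow h)]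
      intro v w hv hw
      rw [Nat.cast_ofNat] at hv hw
      exact HeightOneSpectrum.ext ((Pool.Agent.Y682.two_val h2 hv).trans
        (Pool.Agent.Y682.two_val h2 hw).symm)
  obtain ⟨-, hr, hs⟩ := first hK (-2) (-3) hP h2 (fun _ => hE) hv
  obtain ⟨hq1, hq2⟩ := Pool.Agent.R432.E24.ex24
  have hcast : E (-2) (-3) ℚ = ⟨0, -2, 0, -3, 0⟩ := by
    unfold E
    norm_num
  have hq0 : rankQ (-2) (-3) = 0 := by
    unfold rankQ
    rw [hcast]
    exact hq1
  rw [hq0, zero_add] at hr hs
  refine ⟨hr, fun h x hx => ?_⟩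
  obtain ⟨φ⟩ := hs h
  have hz : ∀ z : ShaTwoQ (-2) (-3), z = 0 := by
    rw [← hcast] at hq2
    rintro ⟨z, m, hm⟩
    exact Subtype.ext (hq2 m z hm)
  have h5 : (⟨x, hx⟩ : ShaTwo (-2) (-3) K) = 0 := by
    apply φ.injective
    rw [hz (φ ⟨x, hx⟩), map_zero]
  exact congrArg Subtype.val h5

/-- **Main theorem.**  Let `K` be a number field of odd degree and odd narrow class number.
(1) Let `A`, `B` be the coefficients of a curve `E : y² = x³ + A x² + B x` with opposite types at `∞`
and at `2`, suppose that `(2)` is a prime ideal of the ring of integers of `K`, that the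
pair is not exceptional if `3` divides the degree of `K`, and that `AtBad` holds for the bad primes.  Then
rank and `Ш[2^∞]` of `E` are controlled from `ℚ` to `K` by the number of the complex places.
(2) The same holds, without a condition on `K` at `2`, for `E : y² = x³ + a x² + 16 c x` and for
`E : y² = x³ - 2a x² + (a² - 64c) x` with `a = 1` modulo `4`, `c > 0`, `a < 0` or `a² < 64c`, if there is only one
prime of `K` above each prime factor of `c (a² - 64c)`.
(3) For `E : y² = x (x + 1) (x - 3)`, if `(2)` is a prime ideal of the ring of integers of `K` and there is only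
one prime of `K` above `3`, the rank of `E(K)` is at most the number of the complex places of `K`, and if
it is equal to it, then `Ш(E/K)[2^∞] = 0`.
(4) If `K` has degree `3` and contains an element `α` with `α³ = α + 1`, then `E : y² = x (x + 1) (x - 3)` has rank `1`
over `K` and `Ш(E/K)[2^∞] = 0`. -/
theorem result :
    (∀ (K : Type) [Field K] [NumberField K], OddField K → First K ∧ Second K ∧ Third K) ∧
    (∀ (K : Type) [Field K] [NumberField K] (α : K), Module.finrank ℚ K = 3 → α ^ 3 = α + 1 →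
      rank (-2) (-3) K = 1 ∧ Vanishes K) := by
  refine ⟨fun K _ _ hK => ⟨first hK, second hK, third hK⟩, fun K _ _ α hd hα => ?_⟩
  have h3 : OneAbove K 3 := by
    intro v w hv hw
    exact HeightOneSpectrum.ext ((Pool.Agent.R432.CX.one_above hα hd (Or.inr rfl) v hv).trans
      (Pool.Agent.R432.CX.one_above hα hd (Or.inr rfl) w hw).symm)
  obtain ⟨h1, h2⟩ := third (K := K) ⟨by rw [hd]; decide,
    by rw [Pool.Agent.R432.CX.card_NCl hα hd]; exact odd_one⟩
    (Pool.Agent.R432.CX.two_prime hα hd) h3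
  have hr : 1 ≤ rank (-2) (-3) K := Pool.Agent.R432.CX.rank_ex hα hd
  rw [(Pool.Agent.R432.CX.nr_places hα hd).2] at h1 h2
  have h5 : rank (-2) (-3) K = 1 := le_antisymm h1 hr
  exact ⟨h5, h2 h5⟩

end Pool.Agent.Results.MP_78d38b_nt.ComplexPlaces
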