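import Mathlib
import Pool.Agent.R432.GR
import Pool.Agent.R432.E15
import Pool.Agent.Y682.YQ.Inr
import Pool.Agent.Y682.XD.Fin
import Pool.Agent.Y419.XD.Ram

/-!
# The growth of the 2-primary part of `Ш` in totally real fields of odd degree, and in all the
# layers of the cyclotomic `ℤ₃`-extension

For integers `o, m > 0` with `o = 3` modulo `4` let `E : y² = x³ + 2 (o - 32 m) x² + o² x` (the quotient
of `y² = x (x - o) (x - 16 m)` by the point `(16 m, 0)`). Over a totally real field `K` of odd degree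
`d` and odd narrow class number with only one prime above each prime factor of `o m (16 m - o)`,
the rank of `E(K)` is the rank of `E(ℚ)`, and `Ш(E/K)[2^∞]` is the product of `Ш(E/ℚ)[2^∞]` and
`(ℤ/2)^(d - 1)`: the new classes are those of the units of norm one modulo squares. All the layers of
the cyclotomic `ℤ₃`-extension satisfy the conditions on the field.  For the curve
`y² = x (x - 9) (x - 25)` of conductor 15 (`o = 15`, `m = 1`), with rank zero and
`Ш(E/ℚ)[2^∞] = 0`, the 2-primary part of `Ш(E/K)` is `(ℤ/2)^(d - 1)` and the rank of `E(K)` is zero.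
-/

set_option autoImplicit false

namespace Pool.Agent.Results.MP_78d38b_nt.OddDegreeGrowth

open NumberField IsDedekindDomain

open Pool.Agent.Y682 (NCl)

/-- the curve `y² = x³ + 2 (o - 32 m) x² + o² x` over the field `k` -/
def E (o m : ℤ) (k : Type) [Field k] : WeierstrassCurve k :=
  ⟨0, ((2 * (o - 32 * m) : ℤ) : k), 0, ((o ^ 2 : ℤ) : k), 0⟩

/-- For the curve `E = E o m`: `rank E(K) = rank E(ℚ)`, and `Ш(E/K)[2^∞]` is isomorphic to
`Ш(E/ℚ)[2^∞] × (ℤ/2)^([K : ℚ] - 1)`. -/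
def Growth (K : Type) [Field K] [NumberField K] (o m : ℤ) : Prop :=
  Pool.Agent.TH841.NF.D.rk (E o m K) = Pool.Agent.TH841.SH.D.rk (E o m ℚ) ∧
  Nonempty
    (AddCommGroup.primaryComponent (Pool.Agent.TH841.NF.D.Sha (E o m K)) 2 ≃+
      AddCommGroup.primaryComponent (Pool.Agent.TH841.SH.D.Sha (E o m ℚ)) 2 ×
        (Fin (Module.finrank ℚ K - 1) → ZMod 2))

/-- The curve `E : y² = x³ - 34 x² + 225 x = x (x - 9) (x - 25)` of conductor 15: `E(K)` has rank zero
and `Ш(E/K)[2^∞]` is isomorphic to `(ℤ/2)^([K : ℚ] - 1)`. -/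
def Growth15 (K : Type) [Field K] [NumberField K] : Prop :=
  Pool.Agent.TH841.NF.D.rk (⟨0, -34, 0, 225, 0⟩ : WeierstrassCurve K) = 0 ∧
  Nonempty
    (AddCommGroup.primaryComponent
        (Pool.Agent.TH841.NF.D.Sha (⟨0, -34, 0, 225, 0⟩ : WeierstrassCurve K)) 2 ≃+
      (Fin (Module.finrank ℚ K - 1) → ZMod 2))

/-- There is only one prime of `K` above `p`. -/
def OneAbove (K : Type) [Field K] [NumberField K] (p : ℕ) : Prop :=
  ∀ v w : HeightOneSpectrum (𝓞 K), (p : 𝓞 K) ∈ v.asIdeal → (p : 𝓞 K) ∈ w.asIdeal → v = w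

lemma growth_of {K : Type} [Field K] [NumberField K] [IsTotallyReal K]
    (hdeg : Odd (Module.finrank ℚ K)) (hcl : Odd (Nat.card (NCl K)))
    {o m : ℤ} (ho : 0 < o) (ho4 : o % 4 = 3) (hm : 0 < m)
    (hbad : ∀ p : ℕ, p.Prime → (p : ℤ) ∣ o * m * (16 * m - o) → OneAbove K p) :
    Growth K o m :=
  @Pool.Agent.R432.growth K _ _ DivisionRing.toRatAlgebra inferInstance _ o m ho ho4 hm hcl hdeg hbad

lemma E15_eq (K : Type) [Field K] : E 15 1 K = ⟨0, -34, 0, 225, 0⟩ := by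
  unfold E
  congr 1
  · push_cast; norm_num
  · push_cast; norm_num

lemma growth15_of {K : Type} [Field K] [NumberField K] (h : Growth K 15 1) : Growth15 K := by
  unfold Growth at h
  rw [E15_eq, E15_eq] at h
  obtain ⟨h1, ⟨e⟩⟩ := h
  obtain ⟨k1, k2⟩ := Pool.Agent.R432.E15.ex15
  obtain ⟨W, hW⟩ : ∃ W : WeierstrassCurve ℚ, W = ⟨0, -34, 0, 225, 0⟩ := ⟨_, rfl⟩
  rw [← hW] at h1 e k1 k2
  refine ⟨h1.trans k1, ⟨?_⟩⟩
  have hs : Subsingleton (AddCommGroup.primaryComponent (Pool.Agent.TH841.SH.D.Sha W) 2) := by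
    refine ⟨fun x y => ?_⟩
    have hz : ∀ x : AddCommGroup.primaryComponent (Pool.Agent.TH841.SH.D.Sha W) 2, x.1 = 0 := by
      rintro ⟨x, n, hn⟩
      exact k2 n x hn
    exact Subtype.ext ((hz x).trans (hz y).symm)
  have : Unique (AddCommGroup.primaryComponent (Pool.Agent.TH841.SH.D.Sha W) 2) :=
    @Unique.mk' _ ⟨0⟩ hs
  exact e.trans AddEquiv.uniqueProd

lemma layer (n : ℕ) (M : Type) [Field M] [NumberField M] [IsCyclotomicExtension {3 ^ (n + 1)} ℚ M]
    (K : IntermediateField ℚ M) (hodd : Odd (Module.finrank ℚ K)) :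
    IsTotallyReal K ∧ Odd (Nat.card (NCl K)) ∧
      ∀ p : ℕ, p.Prime → (p = 3 ∨ p % 9 = 2 ∨ p % 9 = 4 ∨ p % 9 = 5 ∨ p % 9 = 7) → OneAbove K p := by
  obtain ⟨h2, -, hN⟩ := Pool.Agent.Y682.XD.three_hyp n M K hodd
  have hz : NeZero (3 ^ (n + 1)) := ⟨pow_ne_zero _ (by norm_num)⟩
  have hreal : IsTotallyReal K := by
    obtain ⟨φ', -⟩ := Pool.Agent.Y682.XT.exists_phi (3 ^ (n + 1)) M
    have hre : Pool.Agent.Y682.XT.IsRe (3 ^ (n + 1)) M K := Pool.Agent.Y682.XT.re_of_odd hodd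
    exact ⟨Pool.Agent.Y682.XT.real_place (q := 3 ^ (n + 1)) (φ := φ') hre⟩
  refine ⟨hreal, hN, fun p hp h => ?_⟩
  rcases h with rfl | h9
  · exact fun v w hv hw => Pool.Agent.Y419.XD.s_ram 3 n Nat.prime_three M K v w hv hw
  · intro v w hv hw
    obtain ⟨u, -, hu⟩ := Pool.Agent.Y682.XT.place_unique hp
      (Pool.Agent.Y682.YQ.inert9 n M K hodd hp h9)
    rw [(hu v).1 hv, (hu w).1 hw]

lemma bad15 {p : ℕ} (hp : p.Prime) (h : (p : ℤ) ∣ 15 * 1 * (16 * 1 - 15)) : p = 3 ∨ p = 5 := by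
  have h1 : p ∣ 3 * 5 := by
    have h2 : (p : ℤ) ∣ ((3 * 5 : ℕ) : ℤ) := by
      refine h.trans (dvd_of_eq ?_)
      norm_num
    exact_mod_cast h2
  rcases (hp.dvd_mul).1 h1 with h2 | h2
  · exact Or.inl ((Nat.prime_dvd_prime_iff_eq hp Nat.prime_three).1 h2)
  · exact Or.inr ((Nat.prime_dvd_prime_iff_eq hp Nat.prime_five).1 h2)

/-- **Theorem.**
(1) Let `o, m > 0` be integers with `o = 3` modulo `4` and `E : y² = x³ + 2 (o - 32 m) x² + o² x`. Let
`K` be a totally real number field of odd degree `d` and odd narrow class number with only one prime above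
each prime factor `p` of `o m (16 m - o)`. Then `rank E(K) = rank E(ℚ)` and
`Ш(E/K)[2^∞] ≃ Ш(E/ℚ)[2^∞] × (ℤ/2)^(d - 1)`. If each prime factor of `o m (16 m - o)` is `3` or
`2, 4, 5, 7` modulo `9` then this holds for all the layers `K` of the cyclotomic `ℤ₃`-extension of `ℚ`
(the subfields of odd degree of the `3 ^ (n + 1)`-th cyclotomic fields), of degree `d`.
(2) The curve `E : y² = x (x - 9) (x - 25)` (`o = 15`, `m = 1`) has `rank E(K) = 0` and
`Ш(E/K)[2^∞] ≃ (ℤ/2)^(d - 1)` for all totally real fields `K` of odd degree `d` and odd narrow class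
number with only one prime above `3` and one above `5`, and for all the layers `K` of the cyclotomic
`ℤ₃`-extension of `ℚ`. -/
theorem result :
    (∀ o m : ℤ, 0 < o → o % 4 = 3 → 0 < m →
      (∀ (K : Type) [Field K] [NumberField K] [IsTotallyReal K],
        Odd (Module.finrank ℚ K) → Odd (Nat.card (NCl K)) →
        (∀ p : ℕ, p.Prime → (p : ℤ) ∣ o * m * (16 * m - o) → OneAbove K p) → Growth K o m) ∧
      ((∀ p : ℕ, p.Prime → (p : ℤ) ∣ o * m * (16 * m - o) →
          p = 3 ∨ p % 9 = 2 ∨ p % 9 = 4 ∨ p % 9 = 5 ∨ p % 9 = 7) →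
        ∀ (n : ℕ) (M : Type) [Field M] [NumberField M] [IsCyclotomicExtension {3 ^ (n + 1)} ℚ M]
          (K : IntermediateField ℚ M), Odd (Module.finrank ℚ K) → Growth K o m)) ∧
    (∀ (K : Type) [Field K] [NumberField K] [IsTotallyReal K],
      Odd (Module.finrank ℚ K) → Odd (Nat.card (NCl K)) → OneAbove K 3 → OneAbove K 5 →
      Growth15 K) ∧
    (∀ (n : ℕ) (M : Type) [Field M] [NumberField M] [IsCyclotomicExtension {3 ^ (n + 1)} ℚ M]
      (K : IntermediateField ℚ M), Odd (Module.finrank ℚ K) → Growth15 K) := by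
  refine ⟨fun o m ho ho4 hm => ⟨fun K _ _ _ hdeg hcl hbad => growth_of hdeg hcl ho ho4 hm hbad,
    fun hbad n M _ _ _ K hodd => ?_⟩, fun K _ _ _ hdeg hcl h3 h5 => ?_, fun n M _ _ _ K hodd => ?_⟩
  · obtain ⟨k1, k2, k3⟩ := layer n M K hodd
    exact growth_of hodd k2 ho ho4 hm fun p hp hpd => k3 p hp (hbad p hp hpd)
  · refine growth15_of (growth_of hdeg hcl (by norm_num) (by norm_num) (by norm_num)
      fun p hp hpd => ?_)
    rcases bad15 hp hpd with rfl | rfl
    · exact h3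
    · exact h5
  · obtain ⟨k1, k2, k3⟩ := layer n M K hodd
    refine growth15_of (growth_of hodd k2 (by norm_num) (by norm_num) (by norm_num)
      fun p hp hpd => k3 p hp ?_)
    rcases bad15 hp hpd with rfl | rfl
    · exact Or.inl rfl
    · exact Or.inr (Or.inr (Or.inr (Or.inl rfl)))

end Pool.Agent.Results.MP_78d38b_nt.OddDegreeGrowth
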