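import Pool.Agent.R431.NO.Pen

/-!
# The Tate-Shafarevich groups of the 2-isogenous curves in one-parameter families

Let `A = D(t) u₀(t)`, `B = D(t) u₁(t)`, where `u₀`, `u₁`, `u₂ = u₀ - u₁` are polynomials with integer
coefficients, `u_k` a constant times a product of `n_k` irreducible polynomials, and `D = c ∏ g_i`.
Under a balance condition almost all members `E : y² = x (x - A) (x - B)` have a bounded rank and a
bounded number of elements of order two in `Ш(E)`, while for the three quotients `E / ⟨T⟩`, `T` a point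
of order two, the binary logarithm of the number of the elements of `Ш(E / ⟨T⟩)` killed by `2` is
`(κ_T + o(1)) log log M`, with an explicit constant `κ_T ≥ 0` depending on the factors of the
polynomials.
-/

set_option autoImplicit false

namespace Pool.Agent.Results.MP_78d38b_nt.PencilsIsogenous

open Finset Polynomial WeierstrassCurve

open Pool.Agent.TH841.SH.D (Sha)

/-- the curve `y² = x (x - A) (x - B)` -/
def E (A B : ℤ) : WeierstrassCurve ℚ := ⟨0, -((A : ℚ) + B), 0, (A : ℚ) * B, 0⟩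

/-- the quotient of `y² = x (x - a) (x - b)` by its subgroup generated by `(0, 0)`: the curve
`y² = x³ + 2 (a + b) x² + (a - b)² x` -/
def Q (a b : ℤ) : WeierstrassCurve ℚ := ⟨0, 2 * ((a : ℚ) + b), 0, ((a : ℚ) - b) ^ 2, 0⟩

/-- the quotients of `E A B` by the subgroups generated by `(0, 0)`, `(A, 0)`, `(B, 0)` -/
def E' (i : Fin 3) (A B : ℤ) : WeierstrassCurve ℚ := ![Q A B, Q (-A) (B - A), Q (-B) (A - B)] i

/-- the elements of the Tate-Shafarevich group killed by `2 ^ j` -/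
def tor (W : WeierstrassCurve ℚ) (j : ℕ) : Set (Sha W) := {x | (2 ^ j) • x = 0}

/-- the rank of the group of the rational points -/
noncomputable def rank (W : WeierstrassCurve ℚ) : ℕ := Module.finrank ℤ W.toAffine.Point

/-- `log log M` -/
noncomputable def loglog (M : ℕ) : ℝ := Real.log (Real.log M)

/-- The pair `(A, B)` is typical. For `E = E A B`: `2 ^ (rank E) * #Ш(E)[2 ^ j] ^ (1 / j) ≤ 2 ^ R` for
all `j ≥ 1`. For each of the three curves `E' = E' i A B`: the rank is at most `R`; for all `j ≥ 1` the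
binary logarithm of `#Ш(E')[2 ^ j]` is between `(κ i - δ) log log M` and
`(κ i + δ) log log M + R j`, and `#(2 Ш(E')[2 ^ j]) ≤ 2 ^ (R j)`. -/
structure Typical (κ : Fin 3 → ℝ) (δ : ℝ) (R M : ℕ) (A B : ℤ) : Prop where
  ne : A ≠ 0 ∧ B ≠ 0 ∧ A ≠ B
  curve : ∀ j : ℕ, 1 ≤ j → (tor (E A B) j).Finite ∧
    2 ^ (rank (E A B) * j) * (tor (E A B) j).ncard ≤ 2 ^ (R * j)
  rank : ∀ i : Fin 3, rank (E' i A B) ≤ R
  finite : ∀ (i : Fin 3) (j : ℕ), 1 ≤ j → (tor (E' i A B) j).Finite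
  lower : ∀ (i : Fin 3) (j : ℕ), 1 ≤ j →
    (κ i - δ) * loglog M ≤ Real.logb 2 (tor (E' i A B) j).ncard
  upper : ∀ (i : Fin 3) (j : ℕ), 1 ≤ j →
    Real.logb 2 (tor (E' i A B) j).ncard ≤ (κ i + δ) * loglog M + R * j
  double : ∀ (i : Fin 3) (j : ℕ), 1 ≤ j →
    ((fun x => x + x) '' tor (E' i A B) j).ncard ≤ 2 ^ (R * j)

/-- `u_k = a_k ∏ f_{k,i}` -/
noncomputable def u {n : Fin 3 → ℕ} (a : Fin 3 → ℤ) (f : ∀ k : Fin 3, Fin (n k) → ℤ[X])
    (k : Fin 3) : ℤ[X] := C (a k) * ∏ i, f k i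

/-- `D = c ∏ g_i` -/
noncomputable def D {m : ℕ} (c : ℤ) (g : Fin m → ℤ[X]) : ℤ[X] := C c * ∏ i, g i

/-- `v` is a square modulo `f` in `ℚ[t]` -/
def SqMod (f v : ℤ[X]) : Prop := ∃ q : ℚ[X], f.map (Int.castRingHom ℚ) ∣
  (q ^ 2 - v.map (Int.castRingHom ℚ))

/-- `- D u₁`, `- D u₀`, `D u₀`: the fibre at a zero of `u_k` has split multiplicative reduction if this
is a square there -/
noncomputable def v {n : Fin 3 → ℕ} {m : ℕ} (a : Fin 3 → ℤ) (f : ∀ k : Fin 3, Fin (n k) → ℤ[X])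
    (c : ℤ) (g : Fin m → ℤ[X]) : Fin 3 → ℤ[X] :=
  ![-(D c g * u a f 1), -(D c g * u a f 0), D c g * u a f 0]

open Classical in
/-- the balance condition: `2 n_k + s_k ≤ n₀ + n₁ + n₂` for all `k`, where `s_k` is the number of
the factors `f_{k,i}` modulo which `v_k` is a square -/
def Balanced {n : Fin 3 → ℕ} {m : ℕ} (a : Fin 3 → ℤ) (f : ∀ k : Fin 3, Fin (n k) → ℤ[X])
    (c : ℤ) (g : Fin m → ℤ[X]) : Prop :=
  ∀ k, 2 * n k + (univ.filter (fun i => SqMod (f k i) (v a f c g k))).card ≤ n 0 + n 1 + n 2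

/-- the order of `u₀, u₁, u₂` for the `i`-th point of order two `T`; `D` times the first two
polynomials in this order are up to sign the differences of `x(T)` and the other two roots -/
def perm (i : Fin 3) : Fin 3 → Fin 3 := ![![0, 1, 2], ![0, 2, 1], ![1, 2, 0]] i

/-- the signs -/
def sign (i : Fin 3) : Fin 3 → ℤ := ![![1, 1, 1], ![-1, -1, -1], ![-1, 1, -1]] i

/-- the three polynomials for the `i`-th point of order two: `w₀ = ± u_p`, `w₁ = ± u_q`,
`w₂ = ± u_r = w₀ - w₁`, where `(p, q, r) = perm i` -/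
noncomputable def w {n : Fin 3 → ℕ} (a : Fin 3 → ℤ) (f : ∀ k : Fin 3, Fin (n k) → ℤ[X])
    (i k : Fin 3) : ℤ[X] := C (sign i k) * u a f (perm i k)

open Classical in
/-- the constant `κ_i = n_p + n_q - (n_r + s) / 2 + r' / 2`, where `(p, q, r) = perm i`, `s` is the
number of the factors of `u_r` modulo which `D w₀` is a square, and `r'` the number of the `g_j`
modulo which `w₀ w₁` is not a square -/
noncomputable def κ {n : Fin 3 → ℕ} {m : ℕ} (a : Fin 3 → ℤ) (f : ∀ k : Fin 3, Fin (n k) → ℤ[X])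
    (c : ℤ) (g : Fin m → ℤ[X]) (i : Fin 3) : ℝ :=
  (n (perm i 0) : ℝ) + n (perm i 1) -
    ((n (perm i 2) : ℝ) +
      (univ.filter (fun x => SqMod (f (perm i 2) x) (D c g * w a f i 0))).card) / 2 +
    ((univ.filter (fun x => ¬ SqMod (g x) (w a f i 0 * w a f i 1))).card : ℝ) / 2

lemma kap_eq {n : Fin 3 → ℕ} {m : ℕ} (a : Fin 3 → ℤ) (f : ∀ k : Fin 3, Fin (n k) → ℤ[X])
    (c : ℤ) (g : Fin m → ℤ[X]) (i : Fin 3) :
    Pool.Agent.R431.NO.kap a f c g i = κ a f c g i := by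
  unfold Pool.Agent.R431.NO.kap Pool.Agent.TH841.LS.sc
  rw [Pool.Agent.R431.NO.UP_pm, Pool.Agent.R431.NO.UP_pm]
  rfl

lemma typical_of {κ : Fin 3 → ℝ} {δ : ℝ} {R M : ℕ} {A B : ℤ} (h : ∀ i,
    Pool.Agent.R431.NO.OkS ((κ i - δ) * Real.log (Real.log M)) ((κ i + δ) * Real.log (Real.log M))
      R (Pool.Agent.Y676.IS.tri i A B)) : Typical κ δ (R + 1) M A B := by
  obtain ⟨h1, h2, h3, h4, -⟩ := h 0
  have hE : ∀ i, E' i A B = Pool.Agent.TH841.LS.WI (Pool.Agent.Y676.IS.tri i A B).1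
      (Pool.Agent.Y676.IS.tri i A B).2 := by
    intro i
    fin_cases i <;> rfl
  have hR : ∀ j : ℕ, 2 ^ (R * j) ≤ 2 ^ ((R + 1) * j) := fun j =>
    Nat.pow_le_pow_right two_pos (Nat.mul_le_mul_right _ (by omega))
  have h5 := fun i => Pool.Agent.R431.NO.typ1 (h i)
  refine ⟨⟨h1, h2, h3⟩, fun j hj => ⟨(h4 j hj).1, (h4 j hj).2.trans (hR j)⟩, fun i => ?_,
    fun i j hj => ?_, fun i j hj => ?_, fun i j hj => ?_, fun i j hj => ?_⟩
  · rw [hE]
    exact (h5 i).1.trans (by omega)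
  · rw [hE]
    exact ((h5 i).2 j hj).1
  · rw [hE]
    exact ((h5 i).2 j hj).2.1
  · rw [hE]
    exact ((h5 i).2 j hj).2.2.1
  · rw [hE]
    have e : (fun x => x + x) '' tor (Pool.Agent.TH841.LS.WI (Pool.Agent.Y676.IS.tri i A B).1
        (Pool.Agent.Y676.IS.tri i A B).2) j =
        {y | ∃ x : Sha (Pool.Agent.TH841.LS.WI (Pool.Agent.Y676.IS.tri i A B).1
          (Pool.Agent.Y676.IS.tri i A B).2), (2 ^ j) • x = 0 ∧ y = x + x} := by
      ext y
      constructor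
      · rintro ⟨x, hx, rfl⟩
        exact ⟨x, hx, rfl⟩
      · rintro ⟨x, hx, rfl⟩
        exact ⟨x, hx, rfl⟩
    rw [e]
    exact ((h5 i).2 j hj).2.2.2.trans (hR j)

open Classical in
/-- **Theorem.** Let `u_k = a_k ∏_{i < n_k} f_{k,i}`, `k = 0, 1, 2`, with `u₀ - u₁ = u₂`, and
`D = c ∏_{i < m} g_i`, where `a_k`, `c` are nonzero and the `n₀ + n₁ + n₂ + m` polynomials
`f_{k,i}`, `g_i` with integer coefficients are irreducible of positive degree and pairwise
non-associated; assume `2 n_k < n₀ + n₁ + n₂` for all `k`, or the balance condition. For all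
`δ, ε > 0` and `L` there are `R`, `M₀` such that for `M ≥ M₀` and `|N| ≤ M ^ L` the pairs `(A, B)`,
`A = (D u₀)(t)`, `B = (D u₁)(t)`, for all `N < t ≤ N + M` with at most `ε M` exceptions are typical:
the curve `E` has a bounded rank and bounded `Ш(E)[2]`, and for the three 2-isogenous curves `E'` the
number of the elements of `Ш(E')` killed by `2` is `2 ^ k` with `k` asymptotic to
`κ_i log log M`. -/
theorem result (n : Fin 3 → ℕ) (m : ℕ) (a : Fin 3 → ℤ) (f : ∀ k : Fin 3, Fin (n k) → ℤ[X])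
    (c : ℤ) (g : Fin m → ℤ[X]) (_ : ∀ k, a k ≠ 0) (_ : c ≠ 0)
    (_ : ∀ k i, Irreducible (f k i) ∧ 0 < (f k i).natDegree)
    (_ : ∀ i, Irreducible (g i) ∧ 0 < (g i).natDegree)
    (_ : ∀ k i l j, (⟨k, i⟩ : Σ k : Fin 3, Fin (n k)) ≠ ⟨l, j⟩ → ¬ Associated (f k i) (f l j))
    (_ : ∀ i j, i ≠ j → ¬ Associated (g i) (g j)) (_ : ∀ k i j, ¬ Associated (f k i) (g j))
    (_ : u a f 0 - u a f 1 = u a f 2)
    (_ : (∀ k, 2 * n k < n 0 + n 1 + n 2) ∨ Balanced a f c g)
    (δ ε : ℝ) (L : ℕ) (_ : 0 < δ) (_ : 0 < ε) :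
    ∃ R M₀ : ℕ, ∀ (N : ℤ) (M : ℕ), M₀ ≤ M → |N| ≤ (M : ℤ) ^ L →
      (((Ioc N (N + (M : ℤ))).filter (fun t => ¬ Typical (κ a f c g) δ R M
        ((D c g * u a f 0).eval t) ((D c g * u a f 1).eval t))).card : ℝ) ≤ ε * M := by
  rename_i ha hc hf hg hff hgg hfg hu hb hδ hε
  have hirr : Pool.Agent.TH841.PT.Irr (Pool.Agent.TH841.TR.allf g f) := by
    refine ⟨?_, ?_, ?_⟩
    · rintro (x | i)
      · exact (hf x.1 x.2).1
      · exact (hg i).1
    · rintro (x | i)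
      · exact (hf x.1 x.2).2
      · exact (hg i).2
    · rintro (x | i) (y | j) hxy
      · exact hff x.1 x.2 y.1 y.2 (fun h => hxy (congrArg Sum.inl h))
      · exact hfg x.1 x.2 j
      · exact fun h => hfg y.1 y.2 i h.symm
      · exact hgg i j (fun h => hxy (congrArg Sum.inr h))
  have hbal : (∀ k, 2 * n k < n 0 + n 1 + n 2) ∨
      Pool.Agent.TH841.TR.Bal (Pool.Agent.TH841.LS.DG c g) a f := by
    rcases hb with hb | hb
    · exact Or.inl hb
    · exact Or.inr (Pool.Agent.TH841.TR.bal_of (v := v a f c g) rfl rfl rfl fun k => hb k)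
  obtain ⟨R, M₀, h⟩ := Pool.Agent.R431.NO.pen a f c g ha hc hirr hu hbal δ ε L hδ hε
  refine ⟨R + 1, M₀, fun N M hM hN => ?_⟩
  obtain ⟨T, hT1, hT2⟩ := h N M hM hN
  refine le_trans (Nat.cast_le.2 (card_le_card (t := T) fun t ht => ?_)) hT1
  rw [mem_filter] at ht
  by_contra hn
  apply ht.2
  apply typical_of
  intro i
  have h1 := hT2 t ht.1 hn i
  rw [kap_eq] at h1
  exact h1

end Pool.Agent.Results.MP_78d38b_nt.PencilsIsogenous
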