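import Pool.Agent.R432.Q2
import Pool.Agent.Y699.R10
import Pool.Agent.Y715.QT.Top2
import Pool.Agent.Y715.QT.Seq2
import Pool.Agent.Y155.QT.Mix
import Pool.Agent.Y394.QT.Dim2
import Pool.Agent.Y495.QT.Pri
import Pool.Agent.Y261.QT.DES
import Pool.Agent.Y978.QT.RKG

/-!
# Tate-Shafarevich groups over the fields `ℚ(i)(⁴√l, √q)`, for a positive proportion of the elliptic
# curves over `ℚ(i)` with `j`-invariant `1728`

Every elliptic curve over `ℚ(i)` with `j = 1728` is isomorphic to `E_D : y² = x³ + D x` for exactly one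
Gaussian integer `D` that no fourth power of a prime divides.  We prove that for a positive
proportion of all these `D`, ordered by norm, there is an infinite set `Q` of primes `l` such that for
every finite subset `S₄` of `Q` and every finite set `S₂` of primes `q` (not dividing `2D`, of norm `1`
modulo `8`, modulo which `D` is not a square and the `l` in `S₄` are squares) the
following holds for `F = ℚ(i)(⁴√l, √q : l ∈ S₄, q ∈ S₂)`, an abelian extension of `ℚ(i)` with Galois group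
`(ℤ/4)^a × (ℤ/2)^b`: `E_D(F)` is finite, and the 2-primary part of `Ш(E_D/F)` is finite and killed by
the degree `[F : ℚ(i)] = 4^a 2^b`.

The proof.  (1) Each quartic twist `E_{D d}` of `E_D` by a product `d` of powers of the `l` and of the
squares of the `q` has trivial `Ш[2^∞]` over `ℚ(i)`: descent with the isogeny `1 + i`; the local
conditions at the primes with exponent two in `D d` are read off from the residue symbols.
(2) For a quadratic extension `F/k` of number fields and `E/k`, the 2-primary part of `Ш(E/F)` is killed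
by `2 M` if `M` kills those of `E` and of its quadratic twist; a tower `k ⊂ k(√l) ⊂ k(⁴√l)` turns this
into quartic twists, as the twist of `E_D` by `√l` over `k(√l)` is `E_{D l}`.
(3) The positive proportion and the sets of primes are from the libraries of helper699 and helper715.
-/

set_option autoImplicit false

namespace Pool.Agent.Results.MP_78d38b_nt.QuarticTowersSha

open NumberField IsDedekindDomain

/-- `d` is primary: `d ≡ 1` modulo `2 + 2i`. -/
def Primary (d : GaussianInt) : Prop := (⟨2, 2⟩ : GaussianInt) ∣ d - 1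

variable {F : Type} [Field F] [NumberField F]

/-- `F = ℚ(i)(⁴√l, √q : l ∈ S₄, q ∈ S₂)`, where `ℤ[i]` is embedded in `F` by `ι`. -/
def Generated (ι : GaussianInt →+* 𝓞 F) (S₄ S₂ : Finset GaussianInt) : Prop :=
  ∃ r : GaussianInt → 𝓞 F, (∀ l ∈ S₄, r l ^ 4 = ι l) ∧ (∀ q ∈ S₂, r q ^ 2 = ι q) ∧
    ∀ L : Subfield F, (∀ g : GaussianInt, (ι g : F) ∈ L) → (∀ l ∈ S₄, (r l : F) ∈ L) →
      (∀ q ∈ S₂, (r q : F) ∈ L) → L = ⊤

/-- The curve `y² = x³ + a x` over `F`. -/
def curve (a : 𝓞 F) : WeierstrassCurve F := ⟨0, 0, 0, (a : F), 0⟩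

/-- For `E : y² = x³ + D x` the group `E(F)` is finite, and the 2-primary part of the
Tate-Shafarevich group of `E` over `F` is finite and killed by `N`. -/
def FiniteSha (ι : GaussianInt →+* 𝓞 F) (N : ℕ) (D : GaussianInt) : Prop :=
  Finite (curve (ι D)).toAffine.Point ∧
  Finite (AddCommGroup.primaryComponent (Pool.Agent.TH841.NF.D.Sha (curve (ι D))) 2) ∧
  ∀ x ∈ AddCommGroup.primaryComponent (Pool.Agent.TH841.NF.D.Sha (curve (ι D))) 2, N • x = 0

/-- `D` is not zero and no fourth power of a prime divides it. -/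
def FourthPowerFree (D : GaussianInt) : Prop := D ≠ 0 ∧ ∀ π : GaussianInt, Prime π → ¬ π ^ 4 ∣ D

/-- All the parameters `D` of norm at most `X`; each of them is one elliptic curve over `ℚ(i)` with
`j = 1728`, up to isomorphism. -/
def Family (X : ℕ) : Set GaussianInt := {D | FourthPowerFree D ∧ D.norm ≤ X}

/-- The primes allowed for the square roots: `q` is a primary prime that does not divide `D`, of norm
`1` modulo `8`, `D` is not a square modulo `q`, and the elements of `S₄` are prime to `q` and squares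
modulo `q`. -/
def Allowed (D : GaussianInt) (S₄ : Finset GaussianInt) : Set GaussianInt :=
  {q | Prime q ∧ Primary q ∧ ¬ q ∣ D ∧ q.norm % 8 = 1 ∧ (¬ ∃ x : GaussianInt, q ∣ D - x ^ 2) ∧
    ∀ l ∈ S₄, ¬ q ∣ l ∧ ∃ x : GaussianInt, q ∣ l - x ^ 2}

/-- Those `D` for which there is an infinite set `Q` of primary primes not dividing `D` such that for
every finite subset `S₄` of `Q` the set `Allowed D S₄` is infinite, and for every finite subset `S₂` of
`Allowed D S₄` the field `F = ℚ(i)(⁴√l, √q : l ∈ S₄, q ∈ S₂)` has degree `2 · 4 ^ #S₄ · 2 ^ #S₂`, and for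
`E_D : y² = x³ + D x` the group `E_D(F)` is finite, and the 2-primary part of `Ш(E_D/F)` is finite and
killed by `[F : ℚ(i)] = 4 ^ #S₄ · 2 ^ #S₂`. -/
def Tower (X : ℕ) : Set GaussianInt := {D | D ∈ Family X ∧
  ∃ Q : Set GaussianInt, Q.Infinite ∧ (∀ l ∈ Q, Prime l ∧ Primary l ∧ ¬ l ∣ D) ∧
    ∀ S₄ : Finset GaussianInt, (∀ l ∈ S₄, l ∈ Q) → (Allowed D S₄).Infinite ∧
      ∀ S₂ : Finset GaussianInt, (∀ q ∈ S₂, q ∈ Allowed D S₄) →
        ∀ (F : Type) [Field F] [NumberField F] (ι : GaussianInt →+* 𝓞 F), Generated ι S₄ S₂ →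
          Module.finrank ℚ F = 2 * (4 ^ S₄.card * 2 ^ S₂.card) ∧
          FiniteSha ι (4 ^ S₄.card * 2 ^ S₂.card) D}

theorem primary_iff (d : GaussianInt) :
    Primary d ↔ Pool.Agent.H304R2.EC.A1.prim d := (Pool.Agent.W164.RC.prim_iff_dvd d).symm

theorem pp_iff (d : GaussianInt) : Prime d ∧ Primary d ↔ Pool.Agent.Y699.PP d :=
  ⟨fun h => ⟨h.1, (primary_iff d).1 h.2⟩, fun h => ⟨h.pr, (primary_iff d).2 h.prm⟩⟩

theorem allowed_eq (D : GaussianInt) (S₄ : Finset GaussianInt) :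
    Allowed D S₄ = {q | Pool.Agent.Y715.QT.Alw D S₄ q} := by
  ext q
  constructor
  · rintro ⟨h1, h2, h3, h4, h5, h6⟩
    exact ⟨(pp_iff q).1 ⟨h1, h2⟩, h3, h4, h5, h6⟩
  · intro h
    have h1 := (pp_iff q).2 h.pp
    exact ⟨h1.1, h1.2, h.nd, h.nm, h.ns, h.cr⟩

theorem family_finite (X : ℕ) : (Family X).Finite := by
  refine (Pool.Agent.Y699.fin_norm_le X).subset ?_
  rintro D ⟨-, h⟩
  have h0 := GaussianInt.norm_nonneg D
  show D.norm.natAbs ≤ X
  omega

/-- There are at most `9 X` parameters of norm at most `X`. -/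
theorem family_le {X : ℕ} (hX : 1 ≤ X) : (Family X).ncard ≤ 9 * X := by
  classical
  set s := Nat.sqrt X with hs
  have hs1 : 1 ≤ s := Nat.le_sqrt.2 (by omega)
  set B : Finset (ℤ × ℤ) := (Finset.Icc (-(s : ℤ)) s) ×ˢ (Finset.Icc (-(s : ℤ)) s) with hB
  have hinj : Set.InjOn (fun D : GaussianInt => (D.re, D.im)) (Family X) := by
    intro a _ b _ hab
    simp only [Prod.mk.injEq] at hab
    exact Zsqrtd.ext hab.1 hab.2
  have hmaps : ∀ D ∈ Family X, (fun D : GaussianInt => (D.re, D.im)) D ∈ (B : Set (ℤ × ℤ)) := by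
    rintro D ⟨-, h⟩
    have h1 : D.norm = D.re ^ 2 + D.im ^ 2 := by
      rw [Zsqrtd.norm_def]; ring
    have h4 : D.re.natAbs ≤ s := by
      rw [hs, Nat.le_sqrt']; zify; rw [sq_abs]; nlinarith [sq_nonneg D.im]
    have h5 : D.im.natAbs ≤ s := by
      rw [hs, Nat.le_sqrt']; zify; rw [sq_abs]; nlinarith [sq_nonneg D.re]
    rw [hB, Finset.mem_coe, Finset.mem_product, Finset.mem_Icc, Finset.mem_Icc]
    refine ⟨⟨?_, ?_⟩, ⟨?_, ?_⟩⟩ <;> simp only <;> omega
  have h1 := Set.ncard_le_ncard_of_injOn _ hmaps hinj (Finset.finite_toSet B)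
  rw [Set.ncard_coe_finset] at h1
  refine h1.trans ?_
  have h2 : (Finset.Icc (-(s : ℤ)) s).card = 2 * s + 1 := by
    rw [Int.card_Icc]; omega
  rw [hB, Finset.card_product, h2]
  have h3 : s * s ≤ X := Nat.sqrt_le X
  nlinarith

theorem good_tower {D : GaussianInt} (hg : Pool.Agent.Y699.Good4 D) :
    ∃ Q : Set GaussianInt, Q.Infinite ∧ (∀ l ∈ Q, Prime l ∧ Primary l ∧ ¬ l ∣ D) ∧
    ∀ S₄ : Finset GaussianInt, (∀ l ∈ S₄, l ∈ Q) → (Allowed D S₄).Infinite ∧
      ∀ S₂ : Finset GaussianInt, (∀ q ∈ S₂, q ∈ Allowed D S₄) →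
        ∀ (F : Type) [Field F] [NumberField F] (ι : GaussianInt →+* 𝓞 F), Generated ι S₄ S₂ →
          Module.finrank ℚ F = 2 * (4 ^ S₄.card * 2 ^ S₂.card) ∧
          FiniteSha ι (4 ^ S₄.card * 2 ^ S₂.card) D := by
  classical
  have hD := hg.ps.ne
  obtain ⟨p1, hp1⟩ := Pool.Agent.Y715.QT.exists_p1 hg
  obtain ⟨Q, hQ1, hQ2, hQ3⟩ := Pool.Agent.Y715.QT.exists_set Pool.Agent.Y495.QT.pri hD hp1
  refine ⟨Q, hQ1, fun l hl => ?_, fun S₄ hS₄ => ⟨?_, fun S₂ hS₂ F _ _ ι hF => ?_⟩⟩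
  · have h1 := (pp_iff l).2 (hQ2 l hl).1
    exact ⟨h1.1, h1.2, (hQ2 l hl).2⟩
  · rw [allowed_eq]
    exact Pool.Agent.Y715.QT.alw_infinite Pool.Agent.Y495.QT.pri hg hp1 (hQ3 S₄ hS₄)
  · obtain ⟨r, hr⟩ := hF
    have hA : Pool.Agent.Y715.QT.Adm2 D p1 S₄ S₂ :=
      Pool.Agent.Y715.QT.adm2_of (hQ3 S₄ hS₄) fun q hq => by
        have h1 := hS₂ q hq
        rw [allowed_eq] at h1
        exact h1
    have hpf := Pool.Agent.Y715.QT.px2_PF hD hA
    have hfin : Finite (Pool.Agent.Y715.QT.crv (ι D)).Point := by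
      refine Pool.Agent.Y155.QT.rk2 Pool.Agent.Y978.QT.rkg F ι S₄ S₂ r
        (fun q hq => (hA.a4.pp q hq).ne) (fun q hq => (hA.pp q hq).ne) hA.dj hr D hD
        fun e he4 he2 k _ _ _ => ?_
      have he : Pool.Agent.Y715.QT.Exq S₄ S₂ e := ⟨he4, he2⟩
      refine Pool.Agent.Y715.QT.fin_sol fun x y hxy => ?_
      refine Pool.Agent.Y261.QT.des (Pool.Agent.Y715.QT.IX D (S₄ ∪ S₂))
        (Pool.Agent.Y715.QT.px D (S₄ ∪ S₂)) hpf (Pool.Agent.Y715.QT.VV D (S₄ ∪ S₂) e)
        (Pool.Agent.Y715.QT.ex D (S₄ ∪ S₂) e)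
        (Pool.Agent.Y715.QT.ex2_cases he) (Pool.Agent.Y715.QT.Wt_ex2 hg hA he)
        (Pool.Agent.Y715.QT.hker_ex2 hg hA he hp1) (Pool.Agent.Y715.QT.hT_ex2 hg hA he hp1)
        k x y ?_
      rw [Pool.Agent.Y715.QT.prod_ex2 hg hA]
      exact hxy
    refine ⟨Pool.Agent.Y394.QT.dim2 F ι S₄ S₂ r hA.a4.pp hA.pp hA.dj hr, hfin,
      Pool.Agent.R432.Q.tow_fin hg hp1 hA ι hr, ?_⟩
    rintro x ⟨n, hn⟩
    have h1 := Pool.Agent.R432.Q.tow_kl hg hp1 hA ι hr n x hn
    have h2 : 2 ^ (2 * S₄.card + S₂.card) = 4 ^ S₄.card * 2 ^ S₂.card := by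
      rw [pow_add, pow_mul]
      norm_num
    rw [h2] at h1
    exact h1

/-- **Main theorem.**  There is `c > 0` such that for all large `X` at least the proportion `c` of all
Gaussian integers `D` of norm at most `X` that no fourth power of a prime divides, and at least `c X` of
them, have the following property for `E_D : y² = x³ + D x`.  There is an infinite set `Q` of primes
such that for every finite subset `S₄` of `Q` there are infinitely many allowed primes, and for every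
finite set `S₂` of allowed primes and `F = ℚ(i)(⁴√l, √q : l ∈ S₄, q ∈ S₂)`:
`[F : ℚ(i)] = 4 ^ #S₄ · 2 ^ #S₂`, the group `E_D(F)` is finite, and the 2-primary part of the
Tate-Shafarevich group of `E_D` over `F` is finite and killed by `[F : ℚ(i)]`. -/
theorem result : ∃ c : ℝ, 0 < c ∧ ∃ X₀ : ℕ, ∀ X : ℕ, X₀ ≤ X →
    c * ((Family X).ncard : ℝ) ≤ ((Tower X).ncard : ℝ) ∧ c * X ≤ ((Tower X).ncard : ℝ) := by
  obtain ⟨c, hc, X₀, h⟩ := Pool.Agent.Y699.positive₄
  have key : ∀ X : ℕ, X₀ ≤ X → c * X ≤ ((Tower X).ncard : ℝ) := by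
    intro X hX
    refine (h X hX).trans ?_
    have h1 : ((Pool.Agent.Y699.GB₄ X : Finset GaussianInt) : Set GaussianInt) ⊆ Tower X := by
      intro D hD
      have h2 : D ∈ Pool.Agent.Y699.SB X ∧ Pool.Agent.Y699.Good4 D := by
        have h0 := Finset.mem_coe.1 hD
        unfold Pool.Agent.Y699.GB₄ at h0
        classical
        exact Finset.mem_filter.1 h0
      have h3 := (Pool.Agent.Y699.mem_SB).1 h2.1
      refine ⟨⟨⟨h3.2.ne, fun π hπ h5 => ?_⟩, ?_⟩, good_tower h2.2⟩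
      · exact hπ.not_isUnit (h3.2.sqf π (dvd_trans ⟨π ^ 2, by ring⟩ h5))
      · have h4 : D.norm.natAbs ≤ X := h3.1
        omega
    have h5 := Set.ncard_le_ncard h1 ((family_finite X).subset fun D hD => hD.1)
    rw [Set.ncard_coe_finset] at h5
    exact_mod_cast h5
  refine ⟨c / 9, by positivity, max X₀ 1, fun X hX => ?_⟩
  have hX0 : X₀ ≤ X := (le_max_left _ _).trans hX
  have hX1 : 1 ≤ X := (le_max_right _ _).trans hX
  have h1 := key X hX0
  have h2 : ((Family X).ncard : ℝ) ≤ 9 * X := by exact_mod_cast family_le hX1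
  have h3 : (0 : ℝ) ≤ X := Nat.cast_nonneg X
  constructor
  · calc c / 9 * ((Family X).ncard : ℝ) ≤ c / 9 * (9 * X) :=
          mul_le_mul_of_nonneg_left h2 (by positivity)
      _ = c * X := by ring
      _ ≤ _ := h1
  · calc c / 9 * (X : ℝ) ≤ c * X := by nlinarith
      _ ≤ _ := h1

end Pool.Agent.Results.MP_78d38b_nt.QuarticTowersSha
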